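import Pool.Agent.H12.QN.Stmts2

/-! # Board qnb, row VDJ (after the proof of row VDC by helper1) -/

set_option autoImplicit false

namespace Pool.QN

open MeasureTheory intervalIntegral Set

theorem vdj_norm_ee (t : ℝ) : ‖ee t‖ = 1 := by
  unfold ee
  exact Complex.norm_exp_ofReal_mul_I _

theorem vdj_thm : VDJStmt := by
  intro c B
  refine ⟨4 / |c| + 8 * |B| / c ^ 2 + 1, by positivity, ?_⟩
  intro φ φ1 φ2 H al be hal hab hbe h s hh hs
  have hc := H.cpos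
  rw [abs_of_pos hc]
  have hI : uIcc al be = Icc al be := uIcc_of_le hab
  have hsub : Icc al be ⊆ Icc (-1:ℝ) 1 := Icc_subset_Icc hal hbe
  have hB : 0 ≤ B := (abs_nonneg _).trans (H.hi 0 (by constructor <;> norm_num))
  have hh' : (0:ℝ) < |(h:ℝ)| := abs_pos.mpr (by exact_mod_cast hh)
  have hs2 : 2 ≤ |(s:ℝ)| * c := by rwa [div_le_iff₀ hc] at hs
  have hs0 : (0:ℝ) < |(s:ℝ)| := lt_of_lt_of_le (by positivity) hs
  set T : ℝ → ℝ := fun x => h * (1 + s * φ1 x) with hTdef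
  set T1 : ℝ → ℝ := fun x => h * (s * φ2 x) with hT1def
  have hTlow : ∀ x ∈ Icc (-1:ℝ) 1, |(h:ℝ)| * |(s:ℝ)| * c / 2 ≤ |T x| := by
    intro x hx
    have h1 : |(s:ℝ)| * c ≤ |(s:ℝ) * φ1 x| := by
      rw [abs_mul]
      exact mul_le_mul_of_nonneg_left (H.lo x hx) hs0.le
    have h2 : |(s:ℝ) * φ1 x| - 1 ≤ |1 + (s:ℝ) * φ1 x| := by
      have := abs_sub_abs_le_abs_sub ((s:ℝ) * φ1 x) (-1)
      rw [abs_neg, abs_one, sub_neg_eq_add, add_comm ((s:ℝ) * φ1 x)] at this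
      exact this
    have h3 : |(s:ℝ)| * c / 2 ≤ |1 + (s:ℝ) * φ1 x| := by linarith
    change _ ≤ |(h:ℝ) * (1 + s * φ1 x)|
    rw [abs_mul]
    calc |(h:ℝ)| * |(s:ℝ)| * c / 2 = |(h:ℝ)| * (|(s:ℝ)| * c / 2) := by ring
      _ ≤ _ := mul_le_mul_of_nonneg_left h3 hh'.le
  have hTpos : ∀ x ∈ Icc (-1:ℝ) 1, 0 < |T x| := fun x hx =>
    lt_of_lt_of_le (by positivity) (hTlow x hx)
  have hT1 : ∀ x ∈ Icc (-1:ℝ) 1, |T1 x| ≤ |(h:ℝ)| * |(s:ℝ)| * B := by
    intro x hx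
    change |(h:ℝ) * (s * φ2 x)| ≤ _
    rw [abs_mul, abs_mul, ← mul_assoc]
    exact mul_le_mul_of_nonneg_left (H.hi2 x hx) (by positivity)
  have hdT : ∀ x ∈ Icc (-1:ℝ) 1, HasDerivWithinAt T (T1 x) (Icc (-1) 1) x := by
    intro x hx
    exact (((H.d2 x hx).const_mul (s:ℝ)).const_add 1).const_mul (h:ℝ)
  set W : ℝ → ℂ := fun x => ((2 * Real.pi * T x : ℝ) : ℂ) * Complex.I with hW
  set W1 : ℝ → ℂ := fun x => ((2 * Real.pi * T1 x : ℝ) : ℂ) * Complex.I with hW1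
  have hdW : ∀ x ∈ Icc (-1:ℝ) 1, HasDerivWithinAt W (W1 x) (Icc (-1) 1) x := by
    intro x hx
    exact (((hdT x hx).const_mul (2 * Real.pi)).ofReal_comp).mul_const Complex.I
  have hWn : ∀ x, ‖W x‖ = 2 * Real.pi * |T x| := by
    intro x
    change ‖((2 * Real.pi * T x : ℝ) : ℂ) * Complex.I‖ = _
    rw [norm_mul, Complex.norm_I, mul_one, Complex.norm_real, Real.norm_eq_abs, abs_mul,
      abs_of_pos (by positivity : (0:ℝ) < 2 * Real.pi)]
  have hW1n : ∀ x, ‖W1 x‖ = 2 * Real.pi * |T1 x| := by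
    intro x
    change ‖((2 * Real.pi * T1 x : ℝ) : ℂ) * Complex.I‖ = _
    rw [norm_mul, Complex.norm_I, mul_one, Complex.norm_real, Real.norm_eq_abs, abs_mul,
      abs_of_pos (by positivity : (0:ℝ) < 2 * Real.pi)]
  have hW0 : ∀ x ∈ Icc (-1:ℝ) 1, W x ≠ 0 := by
    intro x hx h0
    have := hWn x
    rw [h0, norm_zero] at this
    have h2 := hTpos x hx
    have : 0 < 2 * Real.pi * |T x| := by positivity
    linarith
  set V : ℝ → ℂ := fun x => ee (h * (x + s * φ x)) with hV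
  have hdV : ∀ x ∈ Icc (-1:ℝ) 1, HasDerivWithinAt V (W x * V x) (Icc (-1) 1) x := by
    intro x hx
    have h1 : HasDerivWithinAt (fun x : ℝ => (h:ℝ) * (x + s * φ x)) (T x) (Icc (-1) 1) x :=
      ((hasDerivWithinAt_id x _).add ((H.d1 x hx).const_mul (s:ℝ))).const_mul (h:ℝ)
    have h2 := (((h1.const_mul (2 * Real.pi)).ofReal_comp).mul_const Complex.I).cexp
    have h3 : W x * V x = Complex.exp (((2 * Real.pi * ((h:ℝ) * (x + s * φ x)) : ℝ) : ℂ) * Complex.I)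
        * (((2 * Real.pi * T x : ℝ) : ℂ) * Complex.I) := mul_comm _ _
    rw [h3]
    exact h2
  have hWc : ContinuousOn W (Icc (-1) 1) := fun x hx => (hdW x hx).continuousWithinAt
  have hVc : ContinuousOn V (Icc (-1) 1) := fun x hx => (hdV x hx).continuousWithinAt
  have hW1c : ContinuousOn W1 (Icc (-1) 1) := by
    refine ContinuousOn.mul ?_ continuousOn_const
    refine Complex.continuous_ofReal.comp_continuousOn ?_
    exact continuousOn_const.mul (continuousOn_const.mul (continuousOn_const.mul H.cont))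
  have hdU : ∀ x ∈ Icc (-1:ℝ) 1, HasDerivWithinAt (W⁻¹) (-W1 x / W x ^ 2) (Icc (-1) 1) x :=
    fun x hx => (hdW x hx).inv (hW0 x hx)
  have hUc' : ContinuousOn (fun x => -W1 x / W x ^ 2) (Icc (-1) 1) :=
    hW1c.neg.div (hWc.pow 2) (fun x hx => pow_ne_zero 2 (hW0 x hx))
  have key := integral_mul_deriv_eq_deriv_mul_of_hasDerivWithinAt (a := al) (b := be)
    (u := W⁻¹) (v := V) (u' := fun x => -W1 x / W x ^ 2) (v' := fun x => W x * V x)
    (by rw [hI]; exact fun x hx => (hdU x (hsub hx)).mono hsub)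
    (by rw [hI]; exact fun x hx => (hdV x (hsub hx)).mono hsub)
    (ContinuousOn.intervalIntegrable (by rw [hI]; exact hUc'.mono hsub))
    (ContinuousOn.intervalIntegrable (by rw [hI]; exact (hWc.mul hVc).mono hsub))
  have hL : ∫ x in al..be, (W⁻¹) x * (W x * V x) = ∫ x in al..be, ee (h * (x + s * φ x)) := by
    refine integral_congr fun x hx => ?_
    rw [hI] at hx
    change (W x)⁻¹ * (W x * V x) = V x
    rw [← mul_assoc, inv_mul_cancel₀ (hW0 x (hsub hx)), one_mul]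
  rw [← hL, key]
  have hpi : 1 ≤ 2 * Real.pi := by linarith [Real.pi_gt_three]
  have hVn : ∀ x, ‖V x‖ = 1 := fun x => vdj_norm_ee _
  have hb1 : ∀ x ∈ Icc (-1:ℝ) 1, ‖(W⁻¹) x * V x‖ ≤ 2 / (|(h:ℝ)| * |(s:ℝ)| * c) := by
    intro x hx
    change ‖(W x)⁻¹ * V x‖ ≤ _
    rw [norm_mul, hVn, mul_one, norm_inv, hWn]
    have h2 := hTlow x hx
    have h3 := hTpos x hx
    rw [inv_eq_one_div, div_le_div_iff₀ (by positivity) (by positivity)]
    nlinarith [mul_nonneg (sub_nonneg.mpr hpi) h3.le]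
  have hb2 : ∀ x ∈ Set.uIoc al be, ‖-W1 x / W x ^ 2 * V x‖ ≤
      4 * B / (|(h:ℝ)| * |(s:ℝ)| * c ^ 2) := by
    intro x hx
    have hx' : x ∈ Icc (-1:ℝ) 1 := by
      refine hsub ?_
      rw [← hI]; exact uIoc_subset_uIcc hx
    rw [norm_mul, hVn, mul_one, norm_div, norm_neg, norm_pow, hWn, hW1n]
    have h2 := hTlow x hx'
    have h3 := hTpos x hx'
    have h4 := hT1 x hx'
    have e : 2 * Real.pi * |T1 x| / (2 * Real.pi * |T x|) ^ 2 = |T1 x| / (2 * Real.pi * |T x| ^ 2) := by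
      field_simp
    rw [e]
    have h5 : (|(h:ℝ)| * |(s:ℝ)| * c / 2) ^ 2 ≤ |T x| ^ 2 := pow_le_pow_left₀ (by positivity) h2 2
    calc |T1 x| / (2 * Real.pi * |T x| ^ 2)
        ≤ (|(h:ℝ)| * |(s:ℝ)| * B) / (|(h:ℝ)| * |(s:ℝ)| * c / 2) ^ 2 := by
          refine div_le_div₀ (by positivity) h4 (by positivity) ?_
          nlinarith [mul_nonneg (sub_nonneg.mpr hpi) (sq_nonneg |T x|)]
      _ = 4 * B / (|(h:ℝ)| * |(s:ℝ)| * c ^ 2) := by
          field_simp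
          ring
  have hint : ‖∫ x in al..be, -W1 x / W x ^ 2 * V x‖ ≤
      4 * B / (|(h:ℝ)| * |(s:ℝ)| * c ^ 2) * |be - al| :=
    norm_integral_le_of_norm_le_const hb2
  have hm1 : al ∈ Icc (-1:ℝ) 1 := ⟨hal, hab.trans hbe⟩
  have hp1 : be ∈ Icc (-1:ℝ) 1 := ⟨hal.trans hab, hbe⟩
  have e2 : |be - al| ≤ 2 := by
    rw [abs_of_nonneg (sub_nonneg.2 hab)]
    linarith
  replace hint : ‖∫ x in al..be, -W1 x / W x ^ 2 * V x‖ ≤
      4 * B / (|(h:ℝ)| * |(s:ℝ)| * c ^ 2) * 2 :=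
    hint.trans (mul_le_mul_of_nonneg_left e2 (by positivity))
  calc ‖(W⁻¹) be * V be - (W⁻¹) al * V al - ∫ x in al..be, -W1 x / W x ^ 2 * V x‖
      ≤ ‖(W⁻¹) be * V be‖ + ‖(W⁻¹) al * V al‖ + ‖∫ x in al..be, -W1 x / W x ^ 2 * V x‖ := by
        refine (norm_sub_le _ _).trans ?_
        gcongr
        exact norm_sub_le _ _
    _ ≤ 2 / (|(h:ℝ)| * |(s:ℝ)| * c) + 2 / (|(h:ℝ)| * |(s:ℝ)| * c) +
        4 * B / (|(h:ℝ)| * |(s:ℝ)| * c ^ 2) * 2 := by
        gcongr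
        · exact hb1 be hp1
        · exact hb1 al hm1
    _ = (4 / c + 8 * |B| / c ^ 2) / (|(h:ℝ)| * |(s:ℝ)|) := by
        rw [abs_of_nonneg hB]
        field_simp
        ring
    _ ≤ (4 / c + 8 * |B| / c ^ 2 + 1) / (|(h:ℝ)| * |(s:ℝ)|) := by
        exact div_le_div_of_nonneg_right (by linarith) (by positivity)

end Pool.QN

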