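import Pool.Agent.H79.QN.Stmts2

/-! # Board qn (MP_fa59e7_an), row FD2 -/

set_option autoImplicit false

namespace Pool.Agent.H79.QN

open Finset

theorem fd2_norm_e (t : ℝ) : ‖e t‖ = 1 := by
  unfold e
  have : (2 * (Real.pi : ℂ) * (t : ℂ) * Complex.I) = ((2 * Real.pi * t : ℝ) : ℂ) * Complex.I := by
    push_cast; ring
  rw [this]
  exact Complex.norm_exp_ofReal_mul_I _

theorem fd2_deriv_e {θ : ℝ → ℝ} {x d : ℝ} (h : HasDerivAt θ d x) :
    HasDerivAt (fun y => e (θ y)) (2 * Real.pi * Complex.I * d * e (θ x)) x := by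
  unfold e
  have h1 : HasDerivAt (fun y => (θ y : ℂ)) (d : ℂ) x := h.ofReal_comp
  have h2 : HasDerivAt (fun y => 2 * (Real.pi : ℂ) * (θ y : ℂ) * Complex.I)
      (2 * (Real.pi : ℂ) * (d : ℂ) * Complex.I) x := (h1.const_mul _).mul_const _
  have h3 := h2.cexp
  refine h3.congr_deriv ?_
  ring

theorem fd2_cont_e : Continuous e := by
  unfold e
  fun_prop

theorem fd2 : S_FD2 := by
  intro θ a b l M hab hθ hl hM h1 h2
  have hd : Differentiable ℝ θ := hθ.differentiable (by norm_num)
  have hθ1 : ContDiff ℝ 1 (deriv θ) := by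
    have : ContDiff ℝ (1 + 1) θ := by
      have e1 : ((1 : WithTop ℕ∞) + 1) = 2 := by norm_num
      rw [e1]; exact hθ
    exact (contDiff_succ_iff_deriv.1 this).2.2
  have hd1 : Differentiable ℝ (deriv θ) := hθ1.differentiable (by norm_num)
  have hc1 : Continuous (deriv θ) := hd1.continuous
  have hc2 : Continuous (deriv (deriv θ)) := hθ1.continuous_deriv le_rfl
  have hπ : (2 * (Real.pi : ℂ) * Complex.I) ≠ 0 := by
    simp [Real.pi_ne_zero]
  have hπn : ‖(2 * (Real.pi : ℂ) * Complex.I)‖ = 2 * Real.pi := by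
    rw [norm_mul, norm_mul, Complex.norm_I, mul_one, Complex.norm_real, Real.norm_of_nonneg
      Real.pi_pos.le]
    norm_num
  have hne : ∀ x ∈ Set.Icc a b, ((deriv θ x : ℝ) : ℂ) ≠ 0 := by
    intro x hx h
    have h3 : deriv θ x = 0 := by exact_mod_cast h
    have h4 := h1 x hx
    rw [h3, abs_zero] at h4
    linarith
  have hIcc : Set.uIcc a b = Set.Icc a b := Set.uIcc_of_le hab
  set u : ℝ → ℂ := fun x => (2 * (Real.pi : ℂ) * Complex.I)⁻¹ * (((deriv θ x : ℝ) : ℂ))⁻¹ with hu
  set u' : ℝ → ℂ := fun x => (2 * (Real.pi : ℂ) * Complex.I)⁻¹ *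
    (-((deriv (deriv θ) x : ℝ) : ℂ) / ((deriv θ x : ℝ) : ℂ) ^ 2) with hu'
  set v : ℝ → ℂ := fun x => e (θ x) with hv
  set v' : ℝ → ℂ := fun x => 2 * Real.pi * Complex.I * ((deriv θ x : ℝ) : ℂ) * e (θ x) with hv'
  have hU : ∀ x ∈ Set.uIcc a b, HasDerivAt u (u' x) x := by
    intro x hx
    rw [hIcc] at hx
    have h3 : HasDerivAt (fun y => ((deriv θ y : ℝ) : ℂ)) ((deriv (deriv θ) x : ℝ) : ℂ) x :=
      (hd1 x).hasDerivAt.ofReal_comp
    exact (h3.inv (hne x hx)).const_mul _
  have hV : ∀ x ∈ Set.uIcc a b, HasDerivAt v (v' x) x := by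
    intro x _
    exact fd2_deriv_e (hd x).hasDerivAt
  have hU' : IntervalIntegrable u' MeasureTheory.volume a b := by
    refine ContinuousOn.intervalIntegrable ?_
    rw [hIcc]
    refine continuousOn_const.mul (ContinuousOn.div ?_ ?_ ?_)
    · exact (Complex.continuous_ofReal.comp hc2).neg.continuousOn
    · exact ((Complex.continuous_ofReal.comp hc1).pow 2).continuousOn
    · intro x hx
      exact pow_ne_zero 2 (hne x hx)
  have hV' : IntervalIntegrable v' MeasureTheory.volume a b := by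
    refine Continuous.intervalIntegrable ?_ _ _
    exact (continuous_const.mul (Complex.continuous_ofReal.comp hc1)).mul
      (fd2_cont_e.comp hd.continuous)
  have hparts := intervalIntegral.integral_mul_deriv_eq_deriv_mul hU hV hU' hV'
  have hcong : ∫ x in a..b, e (θ x) = ∫ x in a..b, u x * v' x := by
    refine intervalIntegral.integral_congr fun x hx => ?_
    rw [hIcc] at hx
    have := hne x hx
    simp only [hu, hv']
    field_simp
  rw [hcong, hparts]
  have hub : ∀ x ∈ Set.Icc a b, ‖u x * v x‖ ≤ 1 / (2 * Real.pi * l) := by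
    intro x hx
    simp only [hu, hv]
    rw [norm_mul, fd2_norm_e, mul_one, norm_mul, norm_inv, norm_inv, hπn, Complex.norm_real,
      Real.norm_eq_abs, ← mul_inv, ← one_div]
    refine one_div_le_one_div_of_le (by positivity) ?_
    exact mul_le_mul_of_nonneg_left (h1 x hx) (by positivity)
  have hint : ‖∫ x in a..b, u' x * v x‖ ≤ M / (2 * Real.pi * l ^ 2) * |b - a| := by
    refine intervalIntegral.norm_integral_le_of_norm_le_const fun x hx => ?_
    rw [Set.uIoc_of_le hab] at hx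
    have hx' : x ∈ Set.Icc a b := ⟨hx.1.le, hx.2⟩
    simp only [hu', hv]
    rw [norm_mul, fd2_norm_e, mul_one, norm_mul, norm_inv, hπn, norm_div, norm_neg, norm_pow,
      Complex.norm_real, Complex.norm_real, Real.norm_eq_abs, Real.norm_eq_abs]
    have h3 := h1 x hx'
    have h4 := h2 x hx'
    have h5 : |deriv (deriv θ) x| / |deriv θ x| ^ 2 ≤ M / l ^ 2 := by
      refine div_le_div₀ hM h4 (by positivity) ?_
      exact pow_le_pow_left₀ hl.le h3 2
    have h6 : (2 * Real.pi)⁻¹ * (|deriv (deriv θ) x| / |deriv θ x| ^ 2) ≤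
        (2 * Real.pi)⁻¹ * (M / l ^ 2) := mul_le_mul_of_nonneg_left h5 (by positivity)
    refine h6.trans (le_of_eq ?_)
    field_simp
  have hpi1 : (1 : ℝ) ≤ 2 * Real.pi := by
    have := Real.pi_gt_three
    linarith
  have hb := hub b ⟨hab, le_rfl⟩
  have ha := hub a ⟨le_rfl, hab⟩
  have htri : ‖u b * v b - u a * v a - ∫ x in a..b, u' x * v x‖ ≤
      1 / (2 * Real.pi * l) + 1 / (2 * Real.pi * l) + M / (2 * Real.pi * l ^ 2) * |b - a| := by
    refine (norm_sub_le _ _).trans (add_le_add ?_ hint)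
    exact (norm_sub_le _ _).trans (add_le_add hb ha)
  refine htri.trans ?_
  rw [abs_of_nonneg (sub_nonneg.2 hab)]
  have e1 : 1 / (2 * Real.pi * l) + 1 / (2 * Real.pi * l) ≤ 1 / l := by
    have : 1 / (2 * Real.pi * l) + 1 / (2 * Real.pi * l) = (1 / Real.pi) * (1 / l) := by
      field_simp
      norm_num
    rw [this]
    have h3 : 1 / Real.pi ≤ 1 := by
      rw [div_le_one Real.pi_pos]
      have := Real.pi_gt_three
      linarith
    have h4 : 0 ≤ 1 / l := by positivity
    nlinarith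
  have e2 : M / (2 * Real.pi * l ^ 2) * (b - a) ≤ (b - a) * M / l ^ 2 := by
    have h3 : M / (2 * Real.pi * l ^ 2) ≤ M / l ^ 2 := by
      refine div_le_div_of_nonneg_left hM (by positivity) ?_
      nlinarith [sq_nonneg l, pow_pos hl 2]
    have h4 : 0 ≤ b - a := sub_nonneg.2 hab
    calc M / (2 * Real.pi * l ^ 2) * (b - a) ≤ M / l ^ 2 * (b - a) :=
          mul_le_mul_of_nonneg_right h3 h4
      _ = (b - a) * M / l ^ 2 := by ring
  linarith

end Pool.Agent.H79.QN

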