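import Pool.Agent.H12.QN.Stmts

/-! # Board qnb (MP_fa59e7_an), row L2B -/

set_option autoImplicit false

namespace Pool.QN

open Finset MeasureTheory

namespace L2B

theorem norm_ee (t : ℝ) : ‖ee t‖ = 1 := by
  unfold ee
  exact Complex.norm_exp_ofReal_mul_I _

theorem ee_mul_conj (s t : ℝ) : ee s * (starRingEnd ℂ) (ee t) = ee (s - t) := by
  unfold ee
  rw [← Complex.exp_conj, ← Complex.exp_add]
  congr 1
  rw [map_mul, Complex.conj_ofReal, Complex.conj_I]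
  push_cast
  ring

theorem continuous_ee : Continuous ee := by
  unfold ee
  fun_prop

theorem cont_phi {c B : ℝ} {φ φ1 φ2 : ℝ → ℝ} (h : Cur c B φ φ1 φ2) :
    ContinuousOn φ (Set.Icc (-1) 1) := fun x hx => (h.d1 x hx).continuousWithinAt

theorem int_ee {φ : ℝ → ℝ} (hφ : ContinuousOn φ (Set.Icc (-1) 1)) (u v : ℝ) :
    Integrable (fun x => ee (u * x + v * φ x)) mu := by
  unfold mu
  refine ContinuousOn.integrableOn_compact isCompact_Icc ?_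
  refine continuous_ee.comp_continuousOn ?_
  exact (continuousOn_const.mul continuousOn_id).add (continuousOn_const.mul hφ)

theorem int_mu (f : ℝ → ℂ) : ∫ x, f x ∂mu = ∫ x in (-1 : ℝ)..1, f x := by
  unfold mu
  rw [intervalIntegral.integral_of_le (by norm_num : (-1 : ℝ) ≤ 1), integral_Icc_eq_integral_Ioc]

theorem mu_univ : mu.real Set.univ = 2 := by
  unfold mu
  rw [measureReal_def, Measure.restrict_apply_univ, Real.volume_Icc]
  norm_num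

/-- the Schur kernel -/
noncomputable def kk (c C1 : ℝ) (n m : ℤ) : ℝ :=
  (if n = m then 2 else 0) + (if |((n + m : ℤ) : ℝ)| < 2 / c then 2 else 0) +
    C1 * (1 / ((n - m : ℤ) : ℝ) ^ 2 + 1 / ((n + m : ℤ) : ℝ) ^ 2)

theorem kk_symm (c C1 : ℝ) (n m : ℤ) : kk c C1 n m = kk c C1 m n := by
  unfold kk
  have h1 : ((n - m : ℤ) : ℝ) ^ 2 = ((m - n : ℤ) : ℝ) ^ 2 := by push_cast; ring
  rw [h1, add_comm n m]
  simp only [eq_comm]

theorem kk_nonneg {c C1 : ℝ} (h : 0 < C1) (n m : ℤ) : 0 ≤ kk c C1 n m := by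
  unfold kk
  have h1 : (0 : ℝ) ≤ if n = m then 2 else 0 := by split_ifs <;> norm_num
  have h2 : (0 : ℝ) ≤ if |((n + m : ℤ) : ℝ)| < 2 / c then 2 else 0 := by split_ifs <;> norm_num
  have h3 : 0 ≤ C1 * (1 / ((n - m : ℤ) : ℝ) ^ 2 + 1 / ((n + m : ℤ) : ℝ) ^ 2) := by positivity
  linarith

theorem sum_kk (c C1 : ℝ) (h1 : 0 < C1) (M : ℕ) (hM : 2 / c ≤ M) (S : Finset ℤ) (n : ℤ) :
    ∑ m ∈ S, kk c C1 n m ≤ 2 + 2 * (2 * M + 1) + C1 * (2 * ∑' h : ℤ, 1 / (h : ℝ) ^ 2) := by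
  have hsum : Summable fun h : ℤ => 1 / (h : ℝ) ^ 2 :=
    Real.summable_one_div_int_pow.2 (by norm_num)
  have hA : ∑ m ∈ S, (if n = m then (2 : ℝ) else 0) ≤ 2 := by
    rw [Finset.sum_ite_eq]
    split_ifs <;> norm_num
  have hB : ∑ m ∈ S, (if |((n + m : ℤ) : ℝ)| < 2 / c then (2 : ℝ) else 0) ≤ 2 * (2 * M + 1) := by
    rw [← Finset.sum_filter, Finset.sum_const, nsmul_eq_mul]
    have hc : (S.filter fun m => |((n + m : ℤ) : ℝ)| < 2 / c).card ≤ (Finset.Icc (-(M : ℤ)) M).card := by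
      refine Finset.card_le_card_of_injOn (fun m => n + m) ?_ ?_
      · intro m hm
        have hm1 := (Finset.mem_filter.1 (Finset.mem_coe.1 hm)).2
        have hm2 : |((n + m : ℤ) : ℝ)| ≤ M := (hm1.le).trans hM
        rw [Finset.mem_coe, Finset.mem_Icc]
        rw [abs_le] at hm2
        constructor
        · exact_mod_cast hm2.1
        · exact_mod_cast hm2.2
      · intro a _ b _ hab
        exact add_left_cancel hab
    rw [Int.card_Icc] at hc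
    have hc' : ((S.filter fun m => |((n + m : ℤ) : ℝ)| < 2 / c).card : ℝ) ≤ 2 * M + 1 := by
      have : (S.filter fun m => |((n + m : ℤ) : ℝ)| < 2 / c).card ≤ 2 * M + 1 := by omega
      exact_mod_cast this
    linarith
  have hC : ∑ m ∈ S, 1 / ((n - m : ℤ) : ℝ) ^ 2 ≤ ∑' h : ℤ, 1 / (h : ℝ) ^ 2 := by
    have hs : Summable fun m : ℤ => 1 / ((n - m : ℤ) : ℝ) ^ 2 :=
      (Equiv.subLeft n).summable_iff.2 hsum
    refine (hs.sum_le_tsum S (fun m _ => by positivity)).trans (le_of_eq ?_)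
    exact (Equiv.subLeft n).tsum_eq fun h : ℤ => 1 / (h : ℝ) ^ 2
  have hD : ∑ m ∈ S, 1 / ((n + m : ℤ) : ℝ) ^ 2 ≤ ∑' h : ℤ, 1 / (h : ℝ) ^ 2 := by
    have hs : Summable fun m : ℤ => 1 / ((n + m : ℤ) : ℝ) ^ 2 :=
      (Equiv.addLeft n).summable_iff.2 hsum
    refine (hs.sum_le_tsum S (fun m _ => by positivity)).trans (le_of_eq ?_)
    exact (Equiv.addLeft n).tsum_eq fun h : ℤ => 1 / (h : ℝ) ^ 2
  unfold kk
  rw [Finset.sum_add_distrib, Finset.sum_add_distrib, ← Finset.mul_sum, Finset.sum_add_distrib]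
  have hE := mul_le_mul_of_nonneg_left (add_le_add hC hD) h1.le
  linarith

theorem ker_le {c B C1 : ℝ} (hC1 : 0 < C1)
    (hV : ∀ φ φ1 φ2 : ℝ → ℝ, Cur c B φ φ1 φ2 →
      ∀ h s : ℤ, h ≠ 0 → 2 / c ≤ |(s:ℝ)| →
        ‖∫ x in (-1:ℝ)..1, ee (h * (x + s * φ x))‖ ≤ C1 / (|(h:ℝ)| * |(s:ℝ)|))
    {φ φ1 φ2 : ℝ → ℝ} (h : Cur c B φ φ1 φ2) (n m : ℤ) :
    ‖∫ x, ee ((n * x + (n:ℝ) ^ 2 * φ x) - (m * x + (m:ℝ) ^ 2 * φ x)) ∂mu‖ ≤ kk c C1 n m := by
  have hn3 : 0 ≤ C1 * (1 / ((n - m : ℤ) : ℝ) ^ 2 + 1 / ((n + m : ℤ) : ℝ) ^ 2) := by positivity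
  have htriv : ‖∫ x, ee ((n * x + (n:ℝ) ^ 2 * φ x) - (m * x + (m:ℝ) ^ 2 * φ x)) ∂mu‖ ≤ 2 := by
    have : IsFiniteMeasure mu := by unfold mu; infer_instance
    have h1 := norm_integral_le_of_norm_le_const (μ := mu) (C := 1)
      (f := fun x => ee ((n * x + (n:ℝ) ^ 2 * φ x) - (m * x + (m:ℝ) ^ 2 * φ x)))
      (Filter.Eventually.of_forall fun x => (norm_ee _).le)
    rw [mu_univ, one_mul] at h1
    exact h1
  unfold kk
  by_cases hnm : n = m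
  · rw [if_pos hnm]
    have h2 : (0 : ℝ) ≤ if |((n + m : ℤ) : ℝ)| < 2 / c then 2 else 0 := by split_ifs <;> norm_num
    linarith
  · rw [if_neg hnm]
    by_cases hs : |((n + m : ℤ) : ℝ)| < 2 / c
    · rw [if_pos hs]
      linarith
    · rw [if_neg hs, zero_add, zero_add]
      rw [not_lt] at hs
      have h1 := hV φ φ1 φ2 h (n - m) (n + m) (sub_ne_zero.2 hnm) hs
      rw [int_mu]
      have he : (∫ x in (-1:ℝ)..1, ee ((n * x + (n:ℝ) ^ 2 * φ x) - (m * x + (m:ℝ) ^ 2 * φ x))) =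
          ∫ x in (-1:ℝ)..1, ee (((n - m : ℤ) : ℝ) * (x + ((n + m : ℤ) : ℝ) * φ x)) := by
        congr 1
        funext x
        congr 1
        push_cast
        ring
      rw [he]
      refine h1.trans ?_
      set u : ℝ := |((n - m : ℤ) : ℝ)|⁻¹ with hu
      set v : ℝ := |((n + m : ℤ) : ℝ)|⁻¹ with hv
      have e1 : C1 / (|((n - m : ℤ) : ℝ)| * |((n + m : ℤ) : ℝ)|) = C1 * (u * v) := by
        rw [div_eq_mul_inv, mul_inv]
      have e2 : 1 / ((n - m : ℤ) : ℝ) ^ 2 = u ^ 2 := by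
        rw [hu, inv_pow, sq_abs, one_div]
      have e3 : 1 / ((n + m : ℤ) : ℝ) ^ 2 = v ^ 2 := by
        rw [hv, inv_pow, sq_abs, one_div]
      rw [e1, e2, e3]
      refine mul_le_mul_of_nonneg_left ?_ hC1.le
      nlinarith [sq_nonneg (u - v), sq_nonneg (u + v)]

theorem expand {φ : ℝ → ℝ} (hφ : ContinuousOn φ (Set.Icc (-1) 1)) (S : Finset ℤ) (a : ℤ → ℂ) :
    ((∫ x, ‖FF S a φ x‖ ^ 2 ∂mu : ℝ) : ℂ) = ∑ n ∈ S, ∑ m ∈ S, a n * (starRingEnd ℂ) (a m) *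
      ∫ x, ee ((n * x + (n:ℝ) ^ 2 * φ x) - (m * x + (m:ℝ) ^ 2 * φ x)) ∂mu := by
  have hI : ∀ n m : ℤ, Integrable
      (fun x => ee ((n * x + (n:ℝ) ^ 2 * φ x) - (m * x + (m:ℝ) ^ 2 * φ x))) mu := by
    intro n m
    have h1 := int_ee hφ ((n : ℝ) - m) ((n : ℝ) ^ 2 - (m : ℝ) ^ 2)
    refine h1.congr (Filter.Eventually.of_forall fun x => ?_)
    change ee _ = ee _
    congr 1
    ring
  rw [← integral_complex_ofReal]
  have h2 : ∀ x : ℝ, ((‖FF S a φ x‖ ^ 2 : ℝ) : ℂ) = ∑ n ∈ S, ∑ m ∈ S,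
      a n * (starRingEnd ℂ) (a m) *
        ee ((n * x + (n:ℝ) ^ 2 * φ x) - (m * x + (m:ℝ) ^ 2 * φ x)) := by
    intro x
    rw [Complex.ofReal_pow, ← Complex.mul_conj']
    unfold FF
    rw [map_sum, Finset.sum_mul_sum]
    refine Finset.sum_congr rfl fun n _ => Finset.sum_congr rfl fun m _ => ?_
    rw [map_mul, ← ee_mul_conj]
    ring
  have h3 : ∫ x, ((‖FF S a φ x‖ ^ 2 : ℝ) : ℂ) ∂mu = ∫ x, ∑ n ∈ S, ∑ m ∈ S,
      a n * (starRingEnd ℂ) (a m) *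
        ee ((n * x + (n:ℝ) ^ 2 * φ x) - (m * x + (m:ℝ) ^ 2 * φ x)) ∂mu :=
    integral_congr_ae (Filter.Eventually.of_forall h2)
  refine Eq.trans h3 ?_
  rw [integral_finsetSum _ (fun n _ => integrable_finsetSum _ fun m _ => (hI n m).const_mul _)]
  refine Finset.sum_congr rfl fun n _ => ?_
  rw [integral_finsetSum _ (fun m _ => (hI n m).const_mul _)]
  refine Finset.sum_congr rfl fun m _ => ?_
  rw [integral_const_mul]

end L2B

open L2B in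
theorem l2b_thm (hVDC : VDCStmt) : L2BStmt := by
  intro c B
  obtain ⟨C1, hC1, hV⟩ := hVDC c B
  set Z : ℝ := ∑' h : ℤ, 1 / (h : ℝ) ^ 2 with hZ
  have hZ0 : 0 ≤ Z := tsum_nonneg fun h => by positivity
  set M : ℕ := ⌈2 / c⌉₊ with hM
  have hMc : 2 / c ≤ M := Nat.le_ceil _
  refine ⟨2 + 2 * (2 * M + 1) + C1 * (2 * Z), by positivity, ?_⟩
  intro φ φ1 φ2 h S a
  have hφ := cont_phi h
  have h0 : 0 ≤ ∫ x, ‖FF S a φ x‖ ^ 2 ∂mu := integral_nonneg fun x => by positivity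
  have h1 : ∫ x, ‖FF S a φ x‖ ^ 2 ∂mu ≤ ∑ n ∈ S, ∑ m ∈ S, ‖a n‖ * ‖a m‖ * kk c C1 n m := by
    have h2 : ∫ x, ‖FF S a φ x‖ ^ 2 ∂mu = ‖((∫ x, ‖FF S a φ x‖ ^ 2 ∂mu : ℝ) : ℂ)‖ := by
      rw [Complex.norm_real, Real.norm_of_nonneg h0]
    rw [h2, expand hφ]
    refine (norm_sum_le _ _).trans (Finset.sum_le_sum fun n _ => ?_)
    refine (norm_sum_le _ _).trans (Finset.sum_le_sum fun m _ => ?_)
    rw [norm_mul, norm_mul, RCLike.norm_conj]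
    exact mul_le_mul_of_nonneg_left (ker_le hC1 hV h n m) (by positivity)
  refine h1.trans ?_
  have h3 : ∑ n ∈ S, ∑ m ∈ S, ‖a n‖ * ‖a m‖ * kk c C1 n m ≤
      ∑ n ∈ S, ∑ m ∈ S, ((‖a n‖ ^ 2 / 2) * kk c C1 n m + (‖a m‖ ^ 2 / 2) * kk c C1 n m) := by
    refine Finset.sum_le_sum fun n _ => Finset.sum_le_sum fun m _ => ?_
    have hk := kk_nonneg (c := c) hC1 n m
    nlinarith [sq_nonneg (‖a n‖ - ‖a m‖)]
  refine h3.trans ?_
  have h4 : ∑ n ∈ S, ∑ m ∈ S, ((‖a n‖ ^ 2 / 2) * kk c C1 n m + (‖a m‖ ^ 2 / 2) * kk c C1 n m) =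
      ∑ n ∈ S, ‖a n‖ ^ 2 * ∑ m ∈ S, kk c C1 n m := by
    simp only [Finset.sum_add_distrib]
    have h5 : ∑ n ∈ S, ∑ m ∈ S, (‖a m‖ ^ 2 / 2) * kk c C1 n m =
        ∑ n ∈ S, ∑ m ∈ S, (‖a n‖ ^ 2 / 2) * kk c C1 n m := by
      rw [Finset.sum_comm]
      refine Finset.sum_congr rfl fun n _ => Finset.sum_congr rfl fun m _ => ?_
      rw [kk_symm]
    rw [h5, ← Finset.sum_add_distrib]
    refine Finset.sum_congr rfl fun n _ => ?_
    rw [← Finset.mul_sum]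
    ring
  rw [h4, Finset.mul_sum]
  refine Finset.sum_le_sum fun n _ => ?_
  rw [mul_comm]
  exact mul_le_mul_of_nonneg_right (sum_kk c C1 hC1 M hMc S n) (by positivity)

end Pool.QN

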